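import Mathlib

namespace Pool.Agent.U925.DK

open Matrix

/-- determinant of a block diagonal 4x4 matrix -/
theorem det_block (v : Matrix (Fin 4) (Fin 4) ℂ)
    (h02 : v 0 2 = 0) (h03 : v 0 3 = 0) (h12 : v 1 2 = 0) (h13 : v 1 3 = 0)
    (h20 : v 2 0 = 0) (h21 : v 2 1 = 0) (h30 : v 3 0 = 0) (h31 : v 3 1 = 0) :
    v.det = (v 0 0 * v 1 1 - v 0 1 * v 1 0) * (v 2 2 * v 3 3 - v 2 3 * v 3 2) := by
  rw [Matrix.det_succ_row_zero]
  simp only [Fin.sum_univ_four, Matrix.det_fin_three, Matrix.submatrix_apply]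
  simp [Fin.succAbove, h02, h03, h12, h13, h20, h21, h30, h31, Fin.lt_def, show (Fin.succ 0 : Fin 4) = 1 from rfl, show (Fin.succ 1 : Fin 4) = 2 from rfl, show (Fin.succ 2 : Fin 4) = 3 from rfl]
  ring

/-- a block of a unitary block matrix has unimodular determinant -/
theorem norm_block (v : Matrix (Fin 4) (Fin 4) ℂ) (hv : vᴴ * v = 1)
    (h20 : v 2 0 = 0) (h21 : v 2 1 = 0) (h30 : v 3 0 = 0) (h31 : v 3 1 = 0) :
    ‖v 0 0 * v 1 1 - v 0 1 * v 1 0‖ = 1 := by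
  set w : Matrix (Fin 2) (Fin 2) ℂ := !![v 0 0, v 0 1; v 1 0, v 1 1] with hw
  have e00 := congrFun (congrFun hv 0) 0
  have e01 := congrFun (congrFun hv 0) 1
  have e10 := congrFun (congrFun hv 1) 0
  have e11 := congrFun (congrFun hv 1) 1
  simp only [Matrix.mul_apply, Fin.sum_univ_four, Matrix.conjTranspose_apply, h20, h21, h30, h31,
    mul_zero, add_zero] at e00 e01 e10 e11
  have hww : wᴴ * w = 1 := by
    ext i j
    fin_cases i <;> fin_cases j <;>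
      simp [Matrix.mul_apply, Fin.sum_univ_two, Matrix.conjTranspose_apply, hw]
    · simpa using e00
    · simpa using e01
    · simpa using e10
    · simpa using e11
  have hd : star w.det * w.det = 1 := by
    rw [← Matrix.det_conjTranspose, ← Matrix.det_mul, hww, Matrix.det_one]
  have hdet : w.det = v 0 0 * v 1 1 - v 0 1 * v 1 0 := by
    rw [hw, Matrix.det_fin_two_of]
  rw [← hdet]
  have h2 : ‖w.det‖ * ‖w.det‖ = 1 := by
    have := congrArg norm hd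
    rwa [norm_mul, norm_star, norm_one] at this
  nlinarith [norm_nonneg w.det]

theorem norm_det (v : Matrix (Fin 4) (Fin 4) ℂ) (hv : vᴴ * v = 1) : ‖v.det‖ = 1 := by
  have hd : star v.det * v.det = 1 := by
    rw [← Matrix.det_conjTranspose, ← Matrix.det_mul, hv, Matrix.det_one]
  have h2 : ‖v.det‖ * ‖v.det‖ = 1 := by
    have := congrArg norm hd
    rwa [norm_mul, norm_star, norm_one] at this
  nlinarith [norm_nonneg v.det]

/-- entry of a unitary matrix which is the only nonzero one of its column -/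
theorem norm_entry {n : Type*} [Fintype n] [DecidableEq n] (v : Matrix n n ℂ) (hv : vᴴ * v = 1) (i j : n)
    (h : ∀ k, k ≠ i → v k j = 0) : ‖v i j‖ = 1 := by
  have e := congrFun (congrFun hv j) j
  simp only [Matrix.mul_apply, Matrix.conjTranspose_apply, Matrix.one_apply_eq] at e
  rw [Finset.sum_eq_single i (fun k _ hk => by rw [h k hk, mul_zero]) (by simp)] at e
  have h2 : ‖v i j‖ * ‖v i j‖ = 1 := by
    have := congrArg norm e
    rwa [norm_mul, norm_star, norm_one] at this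
  nlinarith [norm_nonneg (v i j)]

/-- determinant of a monomial matrix -/
theorem det_monomial {n : Type*} [Fintype n] [DecidableEq n] (v : Matrix n n ℂ) (π : Equiv.Perm n)
    (h : ∀ i j, v i j ≠ 0 → j = π i) : v.det = (Equiv.Perm.sign π : ℂ) * ∏ i, v i (π i) := by
  rw [← Matrix.det_transpose, Matrix.det_apply']
  rw [Finset.sum_eq_single π]
  · rfl
  · intro ρ _ hρ
    have : ∃ i, ρ i ≠ π i := by
      by_contra hcon
      push Not at hcon
      exact hρ (Equiv.ext hcon)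
    obtain ⟨i, hi⟩ := this
    have h0 : v i (ρ i) = 0 := by
      by_contra hne
      exact hi (h _ _ hne)
    rw [Finset.prod_eq_zero (Finset.mem_univ i) (by simpa [Matrix.transpose_apply] using h0), mul_zero]
  · simp

def p0123 : Equiv.Perm (Fin 4) := (1 : Equiv.Perm (Fin 4))
def p0213 : Equiv.Perm (Fin 4) := (Equiv.swap 1 2 : Equiv.Perm (Fin 4))
def p0312 : Equiv.Perm (Fin 4) := (Equiv.swap 1 2 * Equiv.swap 1 3 : Equiv.Perm (Fin 4))
def p0321 : Equiv.Perm (Fin 4) := (Equiv.swap 1 3 : Equiv.Perm (Fin 4))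
def p1023 : Equiv.Perm (Fin 4) := (Equiv.swap 0 1 : Equiv.Perm (Fin 4))
def p1203 : Equiv.Perm (Fin 4) := (Equiv.swap 0 1 * Equiv.swap 1 2 : Equiv.Perm (Fin 4))
def p1302 : Equiv.Perm (Fin 4) := (Equiv.swap 0 1 * Equiv.swap 1 2 * Equiv.swap 1 3 : Equiv.Perm (Fin 4))
def p1320 : Equiv.Perm (Fin 4) := (Equiv.swap 0 1 * Equiv.swap 1 3 : Equiv.Perm (Fin 4))
def p2013 : Equiv.Perm (Fin 4) := (Equiv.swap 0 1 * Equiv.swap 0 2 : Equiv.Perm (Fin 4))
def p2103 : Equiv.Perm (Fin 4) := (Equiv.swap 0 2 : Equiv.Perm (Fin 4))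
def p2301 : Equiv.Perm (Fin 4) := (Equiv.swap 0 2 * Equiv.swap 1 3 : Equiv.Perm (Fin 4))
def p2310 : Equiv.Perm (Fin 4) := (Equiv.swap 0 1 * Equiv.swap 0 2 * Equiv.swap 1 3 : Equiv.Perm (Fin 4))
def p3012 : Equiv.Perm (Fin 4) := (Equiv.swap 0 1 * Equiv.swap 0 2 * Equiv.swap 0 3 : Equiv.Perm (Fin 4))
def p3021 : Equiv.Perm (Fin 4) := (Equiv.swap 0 1 * Equiv.swap 0 3 : Equiv.Perm (Fin 4))
def p3102 : Equiv.Perm (Fin 4) := (Equiv.swap 0 2 * Equiv.swap 0 3 : Equiv.Perm (Fin 4))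
def p3120 : Equiv.Perm (Fin 4) := (Equiv.swap 0 3 : Equiv.Perm (Fin 4))
def p3201 : Equiv.Perm (Fin 4) := (Equiv.swap 0 1 * Equiv.swap 0 3 * Equiv.swap 1 2 : Equiv.Perm (Fin 4))
def p3210 : Equiv.Perm (Fin 4) := (Equiv.swap 0 3 * Equiv.swap 1 2 : Equiv.Perm (Fin 4))

/-- The combinatorial contradiction. -/
theorem comb (F : Equiv.Perm (Fin 4) → ℤ)
    (hE : ∀ π, Equiv.Perm.sign π = 1 → F π % 2 = 0) (hO : ∀ π, Equiv.Perm.sign π = -1 → F π % 2 = 1)
    (hC : ∀ π α : Equiv.Perm (Fin 4), F (π * Equiv.swap (α 0) (α 1) * Equiv.swap (α 2) (α 3)) + F π =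
      F (π * Equiv.swap (α 0) (α 1)) + F (π * Equiv.swap (α 2) (α 3))) : False := by
  have r0 : F p3210 + F p0123 = F p0213 + F p3120 := by
    have h := hC p0123 (Equiv.swap 0 1 * Equiv.swap 1 2)
    rwa [show p0123 * Equiv.swap (((Equiv.swap 0 1 * Equiv.swap 1 2) : Equiv.Perm (Fin 4)) 0) (((Equiv.swap 0 1 * Equiv.swap 1 2) : Equiv.Perm (Fin 4)) 1) * Equiv.swap (((Equiv.swap 0 1 * Equiv.swap 1 2) : Equiv.Perm (Fin 4)) 2) (((Equiv.swap 0 1 * Equiv.swap 1 2) : Equiv.Perm (Fin 4)) 3) = p3210 by decide,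
      show p0123 * Equiv.swap (((Equiv.swap 0 1 * Equiv.swap 1 2) : Equiv.Perm (Fin 4)) 0) (((Equiv.swap 0 1 * Equiv.swap 1 2) : Equiv.Perm (Fin 4)) 1) = p0213 by decide,
      show p0123 * Equiv.swap (((Equiv.swap 0 1 * Equiv.swap 1 2) : Equiv.Perm (Fin 4)) 2) (((Equiv.swap 0 1 * Equiv.swap 1 2) : Equiv.Perm (Fin 4)) 3) = p3120 by decide] at h
  have r1 : F p1302 + F p3120 = F p3102 + F p1320 := by
    have h := hC p3120 (Equiv.swap 0 2 * Equiv.swap 1 3)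
    rwa [show p3120 * Equiv.swap (((Equiv.swap 0 2 * Equiv.swap 1 3) : Equiv.Perm (Fin 4)) 0) (((Equiv.swap 0 2 * Equiv.swap 1 3) : Equiv.Perm (Fin 4)) 1) * Equiv.swap (((Equiv.swap 0 2 * Equiv.swap 1 3) : Equiv.Perm (Fin 4)) 2) (((Equiv.swap 0 2 * Equiv.swap 1 3) : Equiv.Perm (Fin 4)) 3) = p1302 by decide,
      show p3120 * Equiv.swap (((Equiv.swap 0 2 * Equiv.swap 1 3) : Equiv.Perm (Fin 4)) 0) (((Equiv.swap 0 2 * Equiv.swap 1 3) : Equiv.Perm (Fin 4)) 1) = p3102 by decide,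
      show p3120 * Equiv.swap (((Equiv.swap 0 2 * Equiv.swap 1 3) : Equiv.Perm (Fin 4)) 2) (((Equiv.swap 0 2 * Equiv.swap 1 3) : Equiv.Perm (Fin 4)) 3) = p1320 by decide] at h
  have r2 : F p2013 + F p1320 = F p2310 + F p1023 := by
    have h := hC p1320 (Equiv.swap 1 2)
    rwa [show p1320 * Equiv.swap (((Equiv.swap 1 2) : Equiv.Perm (Fin 4)) 0) (((Equiv.swap 1 2) : Equiv.Perm (Fin 4)) 1) * Equiv.swap (((Equiv.swap 1 2) : Equiv.Perm (Fin 4)) 2) (((Equiv.swap 1 2) : Equiv.Perm (Fin 4)) 3) = p2013 by decide,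
      show p1320 * Equiv.swap (((Equiv.swap 1 2) : Equiv.Perm (Fin 4)) 0) (((Equiv.swap 1 2) : Equiv.Perm (Fin 4)) 1) = p2310 by decide,
      show p1320 * Equiv.swap (((Equiv.swap 1 2) : Equiv.Perm (Fin 4)) 2) (((Equiv.swap 1 2) : Equiv.Perm (Fin 4)) 3) = p1023 by decide] at h
  have r3 : F p3021 + F p1203 = F p1023 + F p3201 := by
    have h := hC p1203 (Equiv.swap 0 1 * Equiv.swap 1 2)
    rwa [show p1203 * Equiv.swap (((Equiv.swap 0 1 * Equiv.swap 1 2) : Equiv.Perm (Fin 4)) 0) (((Equiv.swap 0 1 * Equiv.swap 1 2) : Equiv.Perm (Fin 4)) 1) * Equiv.swap (((Equiv.swap 0 1 * Equiv.swap 1 2) : Equiv.Perm (Fin 4)) 2) (((Equiv.swap 0 1 * Equiv.swap 1 2) : Equiv.Perm (Fin 4)) 3) = p3021 by decide,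
      show p1203 * Equiv.swap (((Equiv.swap 0 1 * Equiv.swap 1 2) : Equiv.Perm (Fin 4)) 0) (((Equiv.swap 0 1 * Equiv.swap 1 2) : Equiv.Perm (Fin 4)) 1) = p1023 by decide,
      show p1203 * Equiv.swap (((Equiv.swap 0 1 * Equiv.swap 1 2) : Equiv.Perm (Fin 4)) 2) (((Equiv.swap 0 1 * Equiv.swap 1 2) : Equiv.Perm (Fin 4)) 3) = p3201 by decide] at h
  have r4 : F p2310 + F p3201 = F p3210 + F p2301 := by
    have h := hC p3201 (Equiv.swap 0 2 * Equiv.swap 1 3)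
    rwa [show p3201 * Equiv.swap (((Equiv.swap 0 2 * Equiv.swap 1 3) : Equiv.Perm (Fin 4)) 0) (((Equiv.swap 0 2 * Equiv.swap 1 3) : Equiv.Perm (Fin 4)) 1) * Equiv.swap (((Equiv.swap 0 2 * Equiv.swap 1 3) : Equiv.Perm (Fin 4)) 2) (((Equiv.swap 0 2 * Equiv.swap 1 3) : Equiv.Perm (Fin 4)) 3) = p2310 by decide,
      show p3201 * Equiv.swap (((Equiv.swap 0 2 * Equiv.swap 1 3) : Equiv.Perm (Fin 4)) 0) (((Equiv.swap 0 2 * Equiv.swap 1 3) : Equiv.Perm (Fin 4)) 1) = p3210 by decide,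
      show p3201 * Equiv.swap (((Equiv.swap 0 2 * Equiv.swap 1 3) : Equiv.Perm (Fin 4)) 2) (((Equiv.swap 0 2 * Equiv.swap 1 3) : Equiv.Perm (Fin 4)) 3) = p2301 by decide] at h
  have r5 : F p0123 + F p2301 = F p0321 + F p2103 := by
    have h := hC p2301 (Equiv.swap 1 2)
    rwa [show p2301 * Equiv.swap (((Equiv.swap 1 2) : Equiv.Perm (Fin 4)) 0) (((Equiv.swap 1 2) : Equiv.Perm (Fin 4)) 1) * Equiv.swap (((Equiv.swap 1 2) : Equiv.Perm (Fin 4)) 2) (((Equiv.swap 1 2) : Equiv.Perm (Fin 4)) 3) = p0123 by decide,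
      show p2301 * Equiv.swap (((Equiv.swap 1 2) : Equiv.Perm (Fin 4)) 0) (((Equiv.swap 1 2) : Equiv.Perm (Fin 4)) 1) = p0321 by decide,
      show p2301 * Equiv.swap (((Equiv.swap 1 2) : Equiv.Perm (Fin 4)) 2) (((Equiv.swap 1 2) : Equiv.Perm (Fin 4)) 3) = p2103 by decide] at h
  have r6 : F p3102 + F p2013 = F p2103 + F p3012 := by
    have h := hC p2013 (Equiv.swap 0 1 * Equiv.swap 1 2)
    rwa [show p2013 * Equiv.swap (((Equiv.swap 0 1 * Equiv.swap 1 2) : Equiv.Perm (Fin 4)) 0) (((Equiv.swap 0 1 * Equiv.swap 1 2) : Equiv.Perm (Fin 4)) 1) * Equiv.swap (((Equiv.swap 0 1 * Equiv.swap 1 2) : Equiv.Perm (Fin 4)) 2) (((Equiv.swap 0 1 * Equiv.swap 1 2) : Equiv.Perm (Fin 4)) 3) = p3102 by decide,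
      show p2013 * Equiv.swap (((Equiv.swap 0 1 * Equiv.swap 1 2) : Equiv.Perm (Fin 4)) 0) (((Equiv.swap 0 1 * Equiv.swap 1 2) : Equiv.Perm (Fin 4)) 1) = p2103 by decide,
      show p2013 * Equiv.swap (((Equiv.swap 0 1 * Equiv.swap 1 2) : Equiv.Perm (Fin 4)) 2) (((Equiv.swap 0 1 * Equiv.swap 1 2) : Equiv.Perm (Fin 4)) 3) = p3012 by decide] at h
  have r7 : F p0321 + F p3012 = F p3021 + F p0312 := by
    have h := hC p3012 (Equiv.swap 0 2 * Equiv.swap 1 3)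
    rwa [show p3012 * Equiv.swap (((Equiv.swap 0 2 * Equiv.swap 1 3) : Equiv.Perm (Fin 4)) 0) (((Equiv.swap 0 2 * Equiv.swap 1 3) : Equiv.Perm (Fin 4)) 1) * Equiv.swap (((Equiv.swap 0 2 * Equiv.swap 1 3) : Equiv.Perm (Fin 4)) 2) (((Equiv.swap 0 2 * Equiv.swap 1 3) : Equiv.Perm (Fin 4)) 3) = p0321 by decide,
      show p3012 * Equiv.swap (((Equiv.swap 0 2 * Equiv.swap 1 3) : Equiv.Perm (Fin 4)) 0) (((Equiv.swap 0 2 * Equiv.swap 1 3) : Equiv.Perm (Fin 4)) 1) = p3021 by decide,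
      show p3012 * Equiv.swap (((Equiv.swap 0 2 * Equiv.swap 1 3) : Equiv.Perm (Fin 4)) 2) (((Equiv.swap 0 2 * Equiv.swap 1 3) : Equiv.Perm (Fin 4)) 3) = p0312 by decide] at h
  have r8 : F p1203 + F p0312 = F p1302 + F p0213 := by
    have h := hC p0312 (Equiv.swap 1 2)
    rwa [show p0312 * Equiv.swap (((Equiv.swap 1 2) : Equiv.Perm (Fin 4)) 0) (((Equiv.swap 1 2) : Equiv.Perm (Fin 4)) 1) * Equiv.swap (((Equiv.swap 1 2) : Equiv.Perm (Fin 4)) 2) (((Equiv.swap 1 2) : Equiv.Perm (Fin 4)) 3) = p1203 by decide,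
      show p0312 * Equiv.swap (((Equiv.swap 1 2) : Equiv.Perm (Fin 4)) 0) (((Equiv.swap 1 2) : Equiv.Perm (Fin 4)) 1) = p1302 by decide,
      show p0312 * Equiv.swap (((Equiv.swap 1 2) : Equiv.Perm (Fin 4)) 2) (((Equiv.swap 1 2) : Equiv.Perm (Fin 4)) 3) = p0213 by decide] at h
  have qp0123 : F p0123 % 2 = 0 := by
    exact hE p0123 (by decide)
  have qp0213 : F p0213 % 2 = 1 := by
    exact hO p0213 (by decide)
  have qp1023 : F p1023 % 2 = 1 := by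
    exact hO p1023 (by decide)
  have qp1203 : F p1203 % 2 = 0 := by
    exact hE p1203 (by decide)
  have qp2013 : F p2013 % 2 = 0 := by
    exact hE p2013 (by decide)
  have qp2103 : F p2103 % 2 = 1 := by
    exact hO p2103 (by decide)
  omega

end Pool.Agent.U925.DK
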