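import Pool.Agent.U925.DK.Log
import Pool.Agent.U925.DK.Alg

set_option linter.unusedSimpArgs false

namespace Pool.Agent.U925.DK

open Matrix

abbrev Pm := Equiv.Perm (Fin 4)

/-- the face of the simplex with vertex set T -/
def K (T : Set Pm) : Set (Pm → ℝ) := {x | x ∈ stdSimplex ℝ Pm ∧ ∀ π, π ∉ T → x π = 0}

def e (π : Pm) : Pm → ℝ := Pi.single π 1

theorem K_sub (T : Set Pm) : K T ⊆ stdSimplex ℝ Pm := fun _ hx => hx.1

theorem K_mono {T T' : Set Pm} (h : T ⊆ T') : K T ⊆ K T' :=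
  fun _ hx => ⟨hx.1, fun π hπ => hx.2 π (fun h' => hπ (h h'))⟩

theorem K_convex (T : Set Pm) : Convex ℝ (K T) := by
  intro x hx y hy a b ha hb hab
  refine ⟨convex_stdSimplex ℝ Pm hx.1 hy.1 ha hb hab, fun π hπ => ?_⟩
  simp [hx.2 π hπ, hy.2 π hπ]

theorem K_compact (T : Set Pm) : IsCompact (K T) := by
  have hcl : IsClosed {x : Pm → ℝ | ∀ π, π ∉ T → x π = 0} := by
    have : {x : Pm → ℝ | ∀ π, π ∉ T → x π = 0} = ⋂ π, ⋂ (_ : π ∉ T), {x | x π = 0} := by
      ext x; simp
    rw [this]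
    exact isClosed_iInter fun π => isClosed_iInter fun _ => isClosed_eq (continuous_apply π) continuous_const
  exact (isCompact_stdSimplex ℝ Pm).inter_right hcl

theorem e_mem {T : Set Pm} {π : Pm} (h : π ∈ T) : e π ∈ K T := by
  refine ⟨single_mem_stdSimplex ℝ π, fun ρ hρ => ?_⟩
  have : ρ ≠ π := fun hh => hρ (hh ▸ h)
  simp [e, Pi.single_apply, this]

/-- the set of permutations mapping R onto C -/
def PRC (R C : Finset (Fin 4)) : Set Pm := {π | ∀ i, i ∈ R ↔ π i ∈ C}

theorem core (u : (Pm → ℝ) → Matrix (Fin 4) (Fin 4) ℂ) (hc : ContinuousOn u (stdSimplex ℝ Pm))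
    (hu : ∀ x ∈ stdSimplex ℝ Pm, (u x)ᴴ * u x = 1)
    (hb : ∀ R C : Finset (Fin 4), ∀ x ∈ K (PRC R C), ∀ i j, u x i j ≠ 0 → (i ∈ R ↔ j ∈ C)) :
    False := by
  -- entries
  have hent : ∀ i j, ContinuousOn (fun x => u x i j) (stdSimplex ℝ Pm) := by
    intro i j
    exact (continuous_apply_apply i j).comp_continuousOn hc
  have hsub1 : ∀ i j, {π : Pm | π i = j} ⊆ PRC {i} {j} := by
    intro i j π (hπ : π i = j) k
    simp only [Finset.mem_singleton]
    constructor
    · rintro rfl; exact hπ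
    · intro h; exact π.injective (h.trans hπ.symm)
  have hrow : ∀ i j, ∀ x ∈ K {π : Pm | π i = j}, ∀ k, k ≠ j → u x i k = 0 := by
    intro i j x hx k hk
    by_contra hne
    have := (hb {i} {j} x (K_mono (hsub1 i j) hx) i k hne).1 (by simp)
    exact hk (by simpa using this)
  have hcol : ∀ i j, ∀ x ∈ K {π : Pm | π i = j}, ∀ k, k ≠ i → u x k j = 0 := by
    intro i j x hx k hk
    by_contra hne
    have := (hb {i} {j} x (K_mono (hsub1 i j) hx) k j hne).2 (by simp)
    exact hk (by simpa using this)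
  obtain ⟨θ, hθc, hθ⟩ := exists_log (K_convex Set.univ) (K_compact Set.univ)
    (g := fun x => (u x).det)
    ((Continuous.matrix_det continuous_id).comp_continuousOn (hc.mono (K_sub _)))
    (fun x hx => norm_det _ (hu x (K_sub _ hx)))
  have H1 : ∀ i j, ∃ θ : (Pm → ℝ) → ℝ, ContinuousOn θ (K {π : Pm | π i = j}) ∧
      ∀ x ∈ K {π : Pm | π i = j}, u x i j = Complex.exp (θ x * Complex.I) := by
    intro i j
    exact exists_log (K_convex _) (K_compact _) ((hent i j).mono (K_sub _))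
      (fun x hx => norm_entry _ (hu x (K_sub _ hx)) i j (hcol i j x hx))
  choose θ1 hθ1c hθ1 using H1
  set φ : Pm → ℝ := fun π => θ (e π) - ∑ i, θ1 i (π i) (e π) with hφ
  have heK : ∀ π : Pm, e π ∈ K ({π} : Set Pm) := fun π => e_mem rfl
  have hK1 : ∀ (π : Pm) i, e π ∈ K {π' : Pm | π' i = π i} := fun π i => e_mem (by simp)
  have hexpφ : ∀ π : Pm, Complex.exp (φ π * Complex.I) = (Equiv.Perm.sign π : ℂ) := by
    intro π
    have h1 : (u (e π)).det = (Equiv.Perm.sign π : ℂ) * ∏ i, u (e π) i (π i) := by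
      apply det_monomial
      intro i j hij
      by_contra hne
      exact hij (hrow i (π i) (e π) (hK1 π i) j hne)
    have h2 : ∏ i, u (e π) i (π i) = Complex.exp ((∑ i, θ1 i (π i) (e π) : ℝ) * Complex.I) := by
      rw [Complex.ofReal_sum, Finset.sum_mul, Complex.exp_sum]
      exact Finset.prod_congr rfl (fun i _ => hθ1 i (π i) (e π) (hK1 π i))
    have h3 := hθ (e π) (e_mem (Set.mem_univ _))
    rw [h1, h2] at h3
    simp only [hφ]
    rw [Complex.ofReal_sub, sub_mul, Complex.exp_sub, ← h3]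
    field_simp
  have hF : ∀ π : Pm, ∃ n : ℤ, φ π = n * Real.pi ∧ (Equiv.Perm.sign π = 1 → n % 2 = 0) ∧
      (Equiv.Perm.sign π = -1 → n % 2 = 1) := by
    intro π
    rcases Int.units_eq_one_or (Equiv.Perm.sign π) with h | h
    · have := hexpφ π
      rw [h] at this
      simp only [Units.val_one, Int.cast_one] at this
      rw [Complex.exp_eq_one_iff] at this
      obtain ⟨n, hn⟩ := this
      have hn' := congrArg Complex.im hn
      simp at hn'
      refine ⟨2 * n, ?_, fun _ => by omega, fun h' => ?_⟩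
      · rw [hn']; push_cast; ring
      · rw [h] at h'; exact absurd h' (by decide)
    · have := hexpφ π
      rw [h] at this
      simp only [Units.val_neg, Units.val_one, Int.cast_neg, Int.cast_one] at this
      rw [← Complex.exp_pi_mul_I, Complex.exp_eq_exp_iff_exists_int] at this
      obtain ⟨n, hn⟩ := this
      have hn' := congrArg Complex.im hn
      simp at hn'
      refine ⟨2 * n + 1, ?_, fun h' => ?_, fun _ => by omega⟩
      · rw [hn']; push_cast; ring
      · rw [h] at h'; exact absurd h' (by decide)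
  choose F hF1 hF2 hF3 using hF
  -- pair constancy
  have pairconst : ∀ (a b c d : Fin 4) (T' : Set Pm) (ε : ℂ) (θ2 : (Pm → ℝ) → ℝ),
      ContinuousOn θ2 (K T') → (∀ x ∈ K T', Complex.exp (θ2 x * Complex.I) = ε * (u x a c * u x b d)) →
      (∀ π' ∈ T', π' a = c ∧ π' b = d) → ∀ x ∈ K T', ∀ y ∈ K T',
      θ2 x - θ1 a c x - θ1 b d x = θ2 y - θ1 a c y - θ1 b d y := by
    intro a b c d T' ε θ2 hθ2c hθ2 hT
    have s1 : K T' ⊆ K {π : Pm | π a = c} := K_mono (fun π h => (hT π h).1)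
    have s2 : K T' ⊆ K {π : Pm | π b = d} := K_mono (fun π h => (hT π h).2)
    have hval : ∀ x ∈ K T', Complex.exp ((θ2 x - θ1 a c x - θ1 b d x : ℝ) * Complex.I) = ε := by
      intro x hx
      push_cast
      rw [sub_mul, sub_mul, Complex.exp_sub, Complex.exp_sub, hθ2 x hx, ← hθ1 a c x (s1 hx),
        ← hθ1 b d x (s2 hx)]
      have n1 : u x a c ≠ 0 := by rw [hθ1 a c x (s1 hx)]; exact Complex.exp_ne_zero _
      have n2 : u x b d ≠ 0 := by rw [hθ1 b d x (s2 hx)]; exact Complex.exp_ne_zero _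
      field_simp
    exact const_of_exp (K_convex T').isPreconnected
      ((hθ2c.sub ((hθ1c a c).mono s1)).sub ((hθ1c b d).mono s2))
      (fun x hx y hy => by rw [hval x hx, hval y hy])
  -- squares
  have square : ∀ π α : Pm, φ (π * Equiv.swap (α 0) (α 1) * Equiv.swap (α 2) (α 3)) + φ π =
      φ (π * Equiv.swap (α 0) (α 1)) + φ (π * Equiv.swap (α 2) (α 3)) := by
    intro π α
    set q : Pm → Pm := fun κ => π * α * κ * α⁻¹ with hq
    have hqa : ∀ κ k, q κ (α k) = π (α (κ k)) := by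
      intro κ k; simp [hq, Equiv.Perm.mul_apply]
    have q1 : π = q 1 := by simp [hq, mul_assoc]
    have qs : π * Equiv.swap (α 0) (α 1) = q (Equiv.swap 0 1) := by
      rw [Equiv.swap_apply_apply]; simp only [hq, mul_assoc]
    have qt : π * Equiv.swap (α 2) (α 3) = q (Equiv.swap 2 3) := by
      rw [Equiv.swap_apply_apply]; simp only [hq, mul_assoc]
    have qst : π * Equiv.swap (α 0) (α 1) * Equiv.swap (α 2) (α 3) = q (Equiv.swap 0 1 * Equiv.swap 2 3) := by
      rw [Equiv.swap_apply_apply, Equiv.swap_apply_apply]; simp only [hq]; group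
    set T : Set Pm := {π' | ∃ κ : Pm, (κ = 1 ∨ κ = Equiv.swap 0 1 ∨ κ = Equiv.swap 2 3 ∨
      κ = Equiv.swap 0 1 * Equiv.swap 2 3) ∧ π' = q κ} with hT
    set R : Finset (Fin 4) := {α 0, α 1} with hR
    set C : Finset (Fin 4) := {π (α 0), π (α 1)} with hC
    have hRk : ∀ k, α k ∈ R ↔ (k = 0 ∨ k = 1) := by
      intro k; simp [hR]
    have hCk : ∀ k, π (α k) ∈ C ↔ (k = 0 ∨ k = 1) := by
      intro k; simp [hC]
    have hTP : T ⊆ PRC R C := by
      rintro π' ⟨κ, hκ, rfl⟩ i
      obtain ⟨k, rfl⟩ := α.surjective i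
      rw [hRk, hqa, hCk]
      rcases hκ with rfl | rfl | rfl | rfl <;> revert k <;> decide
    have hKT : K T ⊆ stdSimplex ℝ Pm := K_sub T
    set v : (Pm → ℝ) → Matrix (Fin 4) (Fin 4) ℂ := fun x => (u x).submatrix α (π * α : Pm) with hv
    have hvk : ∀ x k l, v x k l = u x (α k) (π (α l)) := fun x k l => rfl
    have hvu : ∀ x ∈ K T, (v x)ᴴ * v x = 1 := by
      intro x hx
      simp only [hv]
      rw [Matrix.conjTranspose_submatrix, Matrix.submatrix_mul_equiv, hu x (hKT hx)]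
      exact Matrix.submatrix_one _ (π * α : Pm).injective
    have hz : ∀ x ∈ K T, ∀ k l, ¬ ((k = 0 ∨ k = 1) ↔ (l = 0 ∨ l = 1)) → v x k l = 0 := by
      intro x hx k l hkl
      by_contra hne
      apply hkl
      have := hb R C x (K_mono hTP hx) (α k) (π (α l)) hne
      rwa [hRk, hCk] at this
    have hm1 : ∀ x ∈ K T, ‖v x 0 0 * v x 1 1 - v x 0 1 * v x 1 0‖ = 1 := fun x hx =>
      norm_block (v x) (hvu x hx) (hz x hx _ _ (by decide)) (hz x hx _ _ (by decide))
        (hz x hx _ _ (by decide)) (hz x hx _ _ (by decide))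
    have hdet : ∀ x ∈ K T, (v x).det = (v x 0 0 * v x 1 1 - v x 0 1 * v x 1 0) *
        (v x 2 2 * v x 3 3 - v x 2 3 * v x 3 2) := fun x hx =>
      det_block (v x) (hz x hx _ _ (by decide)) (hz x hx _ _ (by decide))
        (hz x hx _ _ (by decide)) (hz x hx _ _ (by decide)) (hz x hx _ _ (by decide))
        (hz x hx _ _ (by decide)) (hz x hx _ _ (by decide)) (hz x hx _ _ (by decide))
    have hm2 : ∀ x ∈ K T, ‖v x 2 2 * v x 3 3 - v x 2 3 * v x 3 2‖ = 1 := by
      intro x hx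
      have h1 := norm_det (v x) (hvu x hx)
      rw [hdet x hx, norm_mul, hm1 x hx, one_mul] at h1
      exact h1
    have hvc : ∀ k l, ContinuousOn (fun x => v x k l) (K T) := by
      intro k l
      simp only [hvk]
      exact (hent _ _).mono hKT
    obtain ⟨θ2, hθ2c, hθ2⟩ := exists_log (K_convex T) (K_compact T)
      (g := fun x => v x 0 0 * v x 1 1 - v x 0 1 * v x 1 0)
      (((hvc 0 0).mul (hvc 1 1)).sub ((hvc 0 1).mul (hvc 1 0))) hm1
    obtain ⟨θ3, hθ3c, hθ3⟩ := exists_log (K_convex T) (K_compact T)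
      (g := fun x => v x 2 2 * v x 3 3 - v x 2 3 * v x 3 2)
      (((hvc 2 2).mul (hvc 3 3)).sub ((hvc 2 3).mul (hvc 3 2))) hm2
    have hdetv : ∀ x, (v x).det = (Equiv.Perm.sign α : ℂ) * (Equiv.Perm.sign (π * α) : ℂ) * (u x).det := by
      intro x
      have : v x = ((u x).submatrix α id).submatrix id (π * α : Pm) := by
        ext k l; rfl
      rw [this, Matrix.det_permute', Matrix.det_permute]
      ring
    -- total constancy
    have hA : ∀ x ∈ K T, ∀ y ∈ K T, θ x - θ2 x - θ3 x = θ y - θ2 y - θ3 y := by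
      have hval : ∀ x ∈ K T, (Equiv.Perm.sign α : ℂ) * (Equiv.Perm.sign (π * α) : ℂ) *
          Complex.exp ((θ x - θ2 x - θ3 x : ℝ) * Complex.I) = 1 := by
        intro x hx
        have h1 := hθ x (K_mono (Set.subset_univ _) hx)
        have h2 := hθ2 x hx
        have h3 := hθ3 x hx
        have h4 := hdet x hx
        rw [h2, h3, hdetv, h1] at h4
        push_cast
        rw [sub_mul, sub_mul, Complex.exp_sub, Complex.exp_sub]
        have n1 := Complex.exp_ne_zero (θ2 x * Complex.I)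
        have n2 := Complex.exp_ne_zero (θ3 x * Complex.I)
        rw [div_div, mul_div_assoc', div_eq_one_iff_eq (mul_ne_zero n1 n2)]
        exact h4
      have hne : (Equiv.Perm.sign α : ℂ) * (Equiv.Perm.sign (π * α) : ℂ) ≠ 0 := by
        intro h0
        have := hval (e (q 1)) (e_mem ⟨1, Or.inl rfl, rfl⟩)
        rw [h0, zero_mul] at this
        exact zero_ne_one this
      exact const_of_exp (K_convex T).isPreconnected
        (((hθc.mono (K_mono (Set.subset_univ _))).sub hθ2c).sub hθ3c)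
        (fun x hx y hy => mul_left_cancel₀ hne (by rw [hval x hx, hval y hy]))
    -- vertices
    have hmem : ∀ κ : Pm, (κ = 1 ∨ κ = Equiv.swap 0 1 ∨ κ = Equiv.swap 2 3 ∨
      κ = Equiv.swap 0 1 * Equiv.swap 2 3) → q κ ∈ T := fun κ h => ⟨κ, h, rfl⟩
    have hm1' := hmem 1 (by tauto)
    have hms' := hmem (Equiv.swap 0 1) (by tauto)
    have hmt' := hmem (Equiv.swap 2 3) (by tauto)
    have hmst' := hmem (Equiv.swap 0 1 * Equiv.swap 2 3) (by tauto)
    have w1 : (Equiv.swap (0 : Fin 4) 1 * Equiv.swap 2 3 : Pm) 0 = 1 := by decide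
    have w2 : (Equiv.swap (0 : Fin 4) 1 * Equiv.swap 2 3 : Pm) 1 = 0 := by decide
    have w3 : (Equiv.swap (0 : Fin 4) 1 * Equiv.swap 2 3 : Pm) 2 = 3 := by decide
    have w4 : (Equiv.swap (0 : Fin 4) 1 * Equiv.swap 2 3 : Pm) 3 = 2 := by decide
    have w5 : (Equiv.swap (0 : Fin 4) 1 : Pm) 0 = 1 := by decide
    have w6 : (Equiv.swap (0 : Fin 4) 1 : Pm) 1 = 0 := by decide
    have w7 : (Equiv.swap (0 : Fin 4) 1 : Pm) 2 = 2 := by decide
    have w8 : (Equiv.swap (0 : Fin 4) 1 : Pm) 3 = 3 := by decide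
    have w9 : (Equiv.swap (2 : Fin 4) 3 : Pm) 0 = 0 := by decide
    have w10 : (Equiv.swap (2 : Fin 4) 3 : Pm) 1 = 1 := by decide
    have w11 : (Equiv.swap (2 : Fin 4) 3 : Pm) 2 = 3 := by decide
    have w12 : (Equiv.swap (2 : Fin 4) 3 : Pm) 3 = 2 := by decide
    -- the four pairs
    have P1 := pairconst (α 0) (α 1) (π (α 0)) (π (α 1)) {q 1, q (Equiv.swap 2 3)} 1 θ2
      (hθ2c.mono (K_mono (by rintro x (rfl | rfl) <;> assumption)))
      (by
        intro x hx
        have hxT : x ∈ K T := K_mono (by rintro x (rfl | rfl) <;> assumption) hx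
        rw [← hθ2 x hxT, hvk, hvk, hvk, hvk, hrow (α 0) (π (α 0)) x (K_mono (by
          rintro x (rfl | rfl) <;> simp [hqa, w1, w2, w3, w4, w5, w6, w7, w8, w9, w10, w11, w12]) hx) (π (α 1)) (by simp)]
        ring)
      (by rintro x (rfl | rfl) <;> simp [hqa, w1, w2, w3, w4, w5, w6, w7, w8, w9, w10, w11, w12])
      (e (q 1)) (e_mem (by simp)) (e (q (Equiv.swap 2 3))) (e_mem (by simp))
    have P2 := pairconst (α 0) (α 1) (π (α 1)) (π (α 0)) {q (Equiv.swap 0 1), q (Equiv.swap 0 1 * Equiv.swap 2 3)} (-1) θ2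
      (hθ2c.mono (K_mono (by rintro x (rfl | rfl) <;> assumption)))
      (by
        intro x hx
        have hxT : x ∈ K T := K_mono (by rintro x (rfl | rfl) <;> assumption) hx
        rw [← hθ2 x hxT, hvk, hvk, hvk, hvk, hrow (α 0) (π (α 1)) x (K_mono (by
          rintro x (rfl | rfl) <;> simp [hqa, w1, w2, w3, w4, w5, w6, w7, w8, w9, w10, w11, w12]) hx) (π (α 0)) (by simp)]
        ring)
      (by rintro x (rfl | rfl) <;> simp [hqa, w1, w2, w3, w4, w5, w6, w7, w8, w9, w10, w11, w12])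
      (e (q (Equiv.swap 0 1))) (e_mem (by simp)) (e (q (Equiv.swap 0 1 * Equiv.swap 2 3))) (e_mem (by simp))
    have P3 := pairconst (α 2) (α 3) (π (α 2)) (π (α 3)) {q 1, q (Equiv.swap 0 1)} 1 θ3
      (hθ3c.mono (K_mono (by rintro x (rfl | rfl) <;> assumption)))
      (by
        intro x hx
        have hxT : x ∈ K T := K_mono (by rintro x (rfl | rfl) <;> assumption) hx
        rw [← hθ3 x hxT, hvk, hvk, hvk, hvk, hrow (α 2) (π (α 2)) x (K_mono (by
          rintro x (rfl | rfl) <;> simp [hqa, w1, w2, w3, w4, w5, w6, w7, w8, w9, w10, w11, w12]) hx) (π (α 3)) (by simp)]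
        ring)
      (by rintro x (rfl | rfl) <;> simp [hqa, w1, w2, w3, w4, w5, w6, w7, w8, w9, w10, w11, w12])
      (e (q 1)) (e_mem (by simp)) (e (q (Equiv.swap 0 1))) (e_mem (by simp))
    have P4 := pairconst (α 2) (α 3) (π (α 3)) (π (α 2)) {q (Equiv.swap 2 3), q (Equiv.swap 0 1 * Equiv.swap 2 3)} (-1) θ3
      (hθ3c.mono (K_mono (by rintro x (rfl | rfl) <;> assumption)))
      (by
        intro x hx
        have hxT : x ∈ K T := K_mono (by rintro x (rfl | rfl) <;> assumption) hx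
        rw [← hθ3 x hxT, hvk, hvk, hvk, hvk, hrow (α 2) (π (α 3)) x (K_mono (by
          rintro x (rfl | rfl) <;> simp [hqa, w1, w2, w3, w4, w5, w6, w7, w8, w9, w10, w11, w12]) hx) (π (α 2)) (by simp)]
        ring)
      (by rintro x (rfl | rfl) <;> simp [hqa, w1, w2, w3, w4, w5, w6, w7, w8, w9, w10, w11, w12])
      (e (q (Equiv.swap 2 3))) (e_mem (by simp)) (e (q (Equiv.swap 0 1 * Equiv.swap 2 3))) (e_mem (by simp))
    have A1 := hA (e (q 1)) (e_mem hm1') (e (q (Equiv.swap 0 1))) (e_mem hms')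
    have A2 := hA (e (q 1)) (e_mem hm1') (e (q (Equiv.swap 2 3))) (e_mem hmt')
    have A3 := hA (e (q 1)) (e_mem hm1') (e (q (Equiv.swap 0 1 * Equiv.swap 2 3))) (e_mem hmst')
    have hsum : ∀ κ, φ (q κ) = θ (e (q κ)) - (θ1 (α 0) (π (α (κ 0))) (e (q κ)) +
        θ1 (α 1) (π (α (κ 1))) (e (q κ)) + θ1 (α 2) (π (α (κ 2))) (e (q κ)) +
        θ1 (α 3) (π (α (κ 3))) (e (q κ))) := by
      intro κ
      simp only [hφ]
      rw [← Equiv.sum_comp α, Fin.sum_univ_four]
      simp only [hqa]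
    rw [qst, qs, qt]
    rw [show φ π = φ (q 1) from congrArg φ q1, hsum, hsum, hsum, hsum]
    rw [w1, w2, w3, w4, w5, w6, w7, w8, w9, w10, w11, w12]
    simp only [Equiv.Perm.one_apply]
    linarith
  apply comb F hF2 hF3
  intro π α
  have h := square π α
  rw [hF1, hF1, hF1, hF1] at h
  have h' : ((F (π * Equiv.swap (α 0) (α 1) * Equiv.swap (α 2) (α 3)) + F π : ℤ) : ℝ) * Real.pi =
      ((F (π * Equiv.swap (α 0) (α 1)) + F (π * Equiv.swap (α 2) (α 3)) : ℤ) : ℝ) * Real.pi := by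
    push_cast
    linarith
  exact_mod_cast mul_right_cancel₀ Real.pi_ne_zero h'

end Pool.Agent.U925.DK
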