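import Mathlib

namespace Pool.Agent.U925.DK

open scoped ZeroAtInfty

/-- The right Hilbert module C_0(X)^n. -/
abbrev Mod (n : ℕ) (X : Type) [TopologicalSpace X] : Type := Fin n → C₀(X, ℂ)

/-- The C_0(X)-valued inner product on C_0(X)^n, linear in the second variable. -/
noncomputable def ip {n : ℕ} {X : Type} [TopologicalSpace X] (ξ η : Mod n X) : C₀(X, ℂ) :=
  ∑ i, star (ξ i) * η i

/-- The left action of C_0(X) on C_0(X)^n given by the n proper maps: the i-th coordinate of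
a . ξ is (a ∘ σ_i) ξ_i. -/
noncomputable def act {n : ℕ} {X : Type} [TopologicalSpace X] (σ : Fin n → CocompactMap X X)
    (a : C₀(X, ℂ)) (ξ : Mod n X) : Mod n X := fun i => a.comp (σ i) * ξ i

/-- Unitary equivalence of the C*-correspondences of two classical multivariable systems: a
*-isomorphism ρ and a surjective linear map U with <Uξ, Uη> = ρ <ξ, η> and
U(φ(a)ξ) = φ(ρ(a)) Uξ. -/
def UnitarilyEquivalent {n : ℕ} {X Y : Type} [TopologicalSpace X] [TopologicalSpace Y]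
    (σ : Fin n → CocompactMap X X) (τ : Fin n → CocompactMap Y Y) : Prop :=
  ∃ (ρ : C₀(X, ℂ) ≃⋆ₐ[ℂ] C₀(Y, ℂ)) (U : Mod n X →ₗ[ℂ] Mod n Y), Function.Surjective U ∧
    (∀ ξ η, ip (U ξ) (U η) = ρ (ip ξ η)) ∧ (∀ a ξ, U (act σ a ξ) = act τ (ρ a) (U ξ))

/-- Piecewise conjugacy of two classical multivariable systems. -/
def PiecewiseConjugate {n : ℕ} {X Y : Type} [TopologicalSpace X] [TopologicalSpace Y]
    (σ : Fin n → CocompactMap X X) (τ : Fin n → CocompactMap Y Y) : Prop :=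
  ∃ (γ : X ≃ₜ Y) (V : Equiv.Perm (Fin n) → Set X), (∀ π, IsOpen (V π)) ∧
    (⋃ π, V π) = Set.univ ∧ ∀ π, ∀ x ∈ V π, ∀ i, τ i (γ x) = γ (σ (π i) x)

end Pool.Agent.U925.DK
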