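import Pool.Agent.U925.DK.Defs

namespace Pool.Agent.U925.DK

open scoped ZeroAtInfty
open Matrix

variable {n : ℕ} {X Y : Type} [TopologicalSpace X] [TopologicalSpace Y]

/-- the lift of a continuous function on a compact space -/
noncomputable def lf [CompactSpace X] (a : C(X, ℂ)) : C₀(X, ℂ) := ZeroAtInftyContinuousMap.ContinuousMap.liftZeroAtInfty a

@[simp] theorem lf_apply [CompactSpace X] (a : C(X, ℂ)) (x : X) : lf a x = a x := rfl

theorem sum_apply {ι : Type*} (s : Finset ι) (f : ι → C₀(X, ℂ)) (x : X) :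
    (∑ i ∈ s, f i) x = ∑ i ∈ s, f i x := by
  classical
  induction s using Finset.induction_on with
  | empty => simp
  | insert a s ha ih => rw [Finset.sum_insert ha, Finset.sum_insert ha, ZeroAtInftyContinuousMap.add_apply, ih]

theorem ip_apply (ξ η : Mod n X) (x : X) : ip ξ η x = ∑ i, star (ξ i x) * η i x := by
  rw [ip, sum_apply]; rfl

theorem ip_self_eq_zero {ξ : Mod n X} (h : ip ξ ξ = 0) : ξ = 0 := by
  funext i
  ext x
  have h1 : ip ξ ξ x = 0 := by rw [h]; rfl
  rw [ip_apply] at h1
  have h2 : ∑ i, (Complex.normSq (ξ i x)) = 0 := by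
    have h3 : ((∑ i, (Complex.normSq (ξ i x)) : ℝ) : ℂ) = 0 := by
      rw [← h1]
      push_cast
      refine Finset.sum_congr rfl (fun i _ => ?_)
      rw [Complex.normSq_eq_conj_mul_self]
      rfl
    exact_mod_cast h3
  have h4 := (Finset.sum_eq_zero_iff_of_nonneg (fun i _ => Complex.normSq_nonneg (ξ i x))).1 h2 i (Finset.mem_univ i)
  simpa using h4

/-- A star isomorphism between algebras of continuous functions is a composition with a
homeomorphism. -/
theorem exists_homeo [CompactSpace X] [T2Space X] [CompactSpace Y] [T2Space Y]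
    (ρ : C₀(X, ℂ) ≃⋆ₐ[ℂ] C₀(Y, ℂ)) : ∃ g : Y ≃ₜ X, ∀ a y, ρ a y = a (g y) := by
  have key : ∀ (X Y : Type) (_ : TopologicalSpace X) (_ : TopologicalSpace Y) (_ : CompactSpace X)
      (_ : T2Space X) (_ : CompactSpace Y) (_ : T2Space Y) (ρ : C₀(X, ℂ) ≃⋆ₐ[ℂ] C₀(Y, ℂ)),
      ∃ g : Y → X, Continuous g ∧ ∀ a y, ρ a y = a (g y) := by
    intro X Y _ _ _ _ _ _ ρ
    have hone : ∀ y, ρ (lf 1) y = 1 := by
      intro y
      obtain ⟨b, hb'⟩ := ρ.surjective (lf 1)
      have hb : ρ b = lf 1 := hb'
      have h1 : lf (1 : C(X, ℂ)) * b = b := by ext x; simp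
      have h2 : (ρ (lf 1) * ρ b) y = ρ b y := by rw [← map_mul, h1]
      rw [hb] at h2
      simpa using h2
    let ψ : Y → (C(X, ℂ) →ₐ[ℂ] ℂ) := fun y =>
      { toFun := fun a => ρ (lf a) y
        map_one' := hone y
        map_mul' := fun a b => by
          have : lf (a * b) = lf a * lf b := by ext x; simp
          rw [this, map_mul]; rfl
        map_zero' := by
          have : lf (0 : C(X, ℂ)) = 0 := by ext x; simp
          rw [this, map_zero]; rfl
        map_add' := fun a b => by
          have : lf (a + b) = lf a + lf b := by ext x; simp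
          rw [this, map_add]; rfl
        commutes' := fun r => by
          have : lf (algebraMap ℂ C(X, ℂ) r) = r • lf 1 := by ext x; simp
          rw [this, map_smul, ZeroAtInftyContinuousMap.smul_apply, hone]
          simp }
    let χ : Y → WeakDual.characterSpace ℂ C(X, ℂ) := fun y => WeakDual.CharacterSpace.equivAlgHom.symm (ψ y)
    have hχ : ∀ y a, χ y a = ρ (lf a) y := fun y a => rfl
    refine ⟨fun y => (WeakDual.CharacterSpace.homeoEval X ℂ).symm (χ y), ?_, ?_⟩
    · apply (WeakDual.CharacterSpace.homeoEval X ℂ).symm.continuous.comp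
      apply Continuous.subtype_mk
      apply WeakDual.continuous_of_continuous_eval
      intro a
      exact (ρ (lf a)).continuous
    · intro a y
      have h1 : WeakDual.CharacterSpace.homeoEval X ℂ ((WeakDual.CharacterSpace.homeoEval X ℂ).symm (χ y)) = χ y :=
        (WeakDual.CharacterSpace.homeoEval X ℂ).apply_symm_apply _
      have h2 := congrArg (fun c : WeakDual.characterSpace ℂ C(X, ℂ) => c (a : C(X, ℂ))) h1
      have h3 : lf (a : C(X, ℂ)) = a := by ext x; rfl
      simp only [hχ] at h2
      rw [h3] at h2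
      rw [← h2]
      rfl
  obtain ⟨g, hgc, hg⟩ := key X Y _ _ ‹_› ‹_› ‹_› ‹_› ρ
  obtain ⟨h, hhc, hh⟩ := key Y X _ _ ‹_› ‹_› ‹_› ‹_› ρ.symm
  have sepX : ∀ x x' : X, (∀ a : C₀(X, ℂ), a x = a x') → x = x' := by
    intro x x' hxx
    apply (WeakDual.CharacterSpace.homeoEval X ℂ).injective
    ext a
    exact hxx (lf a)
  have sepY : ∀ x x' : Y, (∀ a : C₀(Y, ℂ), a x = a x') → x = x' := by
    intro x x' hxx
    apply (WeakDual.CharacterSpace.homeoEval Y ℂ).injective
    ext a
    exact hxx (lf a)
  refine ⟨{ toFun := g, invFun := h, left_inv := ?_, right_inv := ?_, continuous_toFun := hgc, continuous_invFun := hhc }, hg⟩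
  · intro y
    apply sepY
    intro a
    rw [← hh, ← hg]
    rw [StarAlgEquiv.apply_symm_apply]
  · intro x
    apply sepX
    intro a
    rw [← hg, ← hh]
    rw [StarAlgEquiv.symm_apply_apply]

theorem sep [CompactSpace X] [T2Space X] (x x' : X) (hxx : ∀ a : C₀(X, ℂ), a x = a x') : x = x' := by
  apply (WeakDual.CharacterSpace.homeoEval X ℂ).injective
  ext a
  exact hxx (lf a)

/-- Reduction of unitary equivalence to a continuous field of unitary matrices. -/
theorem reduction [CompactSpace X] [T2Space X] [CompactSpace Y] [T2Space Y]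
    (σ : Fin n → CocompactMap X X) (τ : Fin n → CocompactMap Y Y) (h : UnitarilyEquivalent σ τ) :
    ∃ (g : Y ≃ₜ X) (u : Y → Matrix (Fin n) (Fin n) ℂ), Continuous u ∧ (∀ y, (u y)ᴴ * u y = 1) ∧
      ∀ y i j, u y i j ≠ 0 → g (τ i y) = σ j (g y) := by
  obtain ⟨ρ, U, hU, hip, hact⟩ := h
  obtain ⟨g, hg⟩ := exists_homeo ρ
  have hmod : ∀ (ξ : Mod n X) (b : C₀(X, ℂ)), U (fun i => ξ i * b) = fun i => U ξ i * ρ b := by
    intro ξ b
    have : U (fun i => ξ i * b) - (fun i => U ξ i * ρ b) = 0 := by
      obtain ⟨η, hη⟩ := hU (U (fun i => ξ i * b) - (fun i => U ξ i * ρ b))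
      apply ip_self_eq_zero
      nth_rewrite 2 [← hη]
      ext y
      rw [ip_apply]
      have e1 := congrArg (fun f : C₀(Y, ℂ) => f y) (hip (fun i => ξ i * b) η)
      have e2 := congrArg (fun f : C₀(Y, ℂ) => f y) (hip ξ η)
      simp only [ip_apply, hg] at e1 e2
      have e3 : ∑ i, star ((ξ i * b) (g y)) * η i (g y) = star (b (g y)) * ∑ i, star (ξ i (g y)) * η i (g y) := by
        rw [Finset.mul_sum]
        refine Finset.sum_congr rfl (fun i _ => ?_)
        rw [ZeroAtInftyContinuousMap.mul_apply, star_mul']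
        ring
      rw [e3, ← e2] at e1
      have e4 : ∑ i, star ((U (fun i => ξ i * b) - fun i => U ξ i * ρ b) i y) * U η i y =
          ∑ i, star (U (fun i => ξ i * b) i y) * U η i y - star (b (g y)) * ∑ i, star (U ξ i y) * U η i y := by
        rw [Finset.mul_sum, ← Finset.sum_sub_distrib]
        refine Finset.sum_congr rfl (fun i _ => ?_)
        rw [Pi.sub_apply, ZeroAtInftyContinuousMap.sub_apply, ZeroAtInftyContinuousMap.mul_apply, hg, star_sub, star_mul']
        ring
      rw [e4, e1, sub_self]
      rfl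
    exact sub_eq_zero.1 this
  set E : Fin n → Mod n X := fun j => Pi.single j (lf 1) with hE
  refine ⟨g, fun y => Matrix.of fun i j => U (E j) i y, ?_, ?_, ?_⟩
  · apply continuous_matrix
    intro i j
    exact (U (E j) i).continuous
  · intro y
    ext j k
    rw [Matrix.mul_apply]
    simp only [Matrix.conjTranspose_apply, Matrix.of_apply]
    have e1 := congrArg (fun f : C₀(Y, ℂ) => f y) (hip (E j) (E k))
    simp only [ip_apply, hg] at e1
    rw [e1]
    rw [Matrix.one_apply]
    by_cases hjk : j = k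
    · subst hjk
      rw [if_pos rfl, Finset.sum_eq_single j]
      · simp [hE]
      · intro i _ hi
        simp [hE, Pi.single_eq_of_ne hi]
      · simp
    · rw [if_neg hjk]
      apply Finset.sum_eq_zero
      intro i _
      by_cases hij : i = j
      · subst hij
        simp [hE, Pi.single_eq_of_ne hjk]
      · simp [hE, Pi.single_eq_of_ne hij]
  · intro y i j hne
    simp only [Matrix.of_apply] at hne
    apply sep
    intro a
    have h1 : act σ a (E j) = fun i => E j i * a.comp (σ j) := by
      funext i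
      ext x
      by_cases hij : i = j
      · subst hij
        simp [act, hE, ZeroAtInftyContinuousMap.comp]
      · simp [act, hE, Pi.single_eq_of_ne hij]
    have h2 := hact a (E j)
    rw [h1, hmod] at h2
    have h3 := congrArg (fun f : C₀(Y, ℂ) => f y) (congrFun h2 i)
    simp only [act, ZeroAtInftyContinuousMap.mul_apply, hg, ZeroAtInftyContinuousMap.coe_comp_to_continuous_fun, Function.comp_apply] at h3
    rw [mul_comm] at h3
    exact (mul_right_cancel₀ hne h3).symm

end Pool.Agent.U925.DK
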