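import Mathlib

namespace Pool.Agent.U925.DK

open Matrix

/-- prepend a digit to a 0-1 sequence -/
def cons (b : Bool) (w : ℕ → Bool) : ℕ → Bool
  | 0 => b
  | k + 1 => w k

@[simp] theorem cons_zero (b w) : cons b w 0 = b := rfl
@[simp] theorem cons_succ (b w k) : cons b w (k + 1) = w k := rfl

theorem continuous_cons (b : Bool) : Continuous (cons b) := by
  apply continuous_pi
  intro k
  cases k with
  | zero => exact continuous_const
  | succ k => exact continuous_apply k

theorem cons_ne (w w' : ℕ → Bool) : cons true w ≠ cons false w' := by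
  intro h
  have := congrFun h 0
  simp at this

/-- The maps on the Cantor part: index 2 prepends the digit 1, index 3 is the surjection onto M,
all other indices prepend the digit 0. -/
def pm {M : Type} (e : (ℕ → Bool) → M) (i : ℕ) (w : ℕ → Bool) : (ℕ → Bool) ⊕ M :=
  if i = 2 then Sum.inl (cons true w) else if i = 3 then Sum.inr (e w) else Sum.inl (cons false w)

theorem pm_two {M : Type} (e : (ℕ → Bool) → M) (w) : pm e 2 w = Sum.inl (cons true w) := rfl
theorem pm_three {M : Type} (e : (ℕ → Bool) → M) (w) : pm e 3 w = Sum.inr (e w) := rfl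
theorem pm_other {M : Type} (e : (ℕ → Bool) → M) (i) (h2 : i ≠ 2) (h3 : i ≠ 3) (w) :
    pm e i w = Sum.inl (cons false w) := by
  simp [pm, h2, h3]

theorem continuous_pm {M : Type} [TopologicalSpace M] (e : (ℕ → Bool) → M) (he : Continuous e) (i : ℕ) :
    Continuous (pm e i) := by
  unfold pm
  split_ifs
  · exact continuous_inl.comp (continuous_cons true)
  · exact continuous_inr.comp he
  · exact continuous_inl.comp (continuous_cons false)

theorem rigid {M : Type} [TopologicalSpace M]
    (hM : ∀ m : M, ∃ C : Set M, IsPreconnected C ∧ m ∈ C ∧ ∃ m' ∈ C, m' ≠ m)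
    (e : (ℕ → Bool) → M) (he : Function.Surjective e) {n : ℕ} (hn : 4 ≤ n)
    (s t : Fin n → M → M)
    (g : ((ℕ → Bool) ⊕ M) ≃ₜ ((ℕ → Bool) ⊕ M))
    (u : ((ℕ → Bool) ⊕ M) → Matrix (Fin n) (Fin n) ℂ)
    (hu : ∀ y, (u y)ᴴ * u y = 1)
    (hgu : ∀ y i j, u y i j ≠ 0 →
      g (Sum.elim (pm e i) (fun m => Sum.inr (t i m)) y) = Sum.elim (pm e j) (fun m => Sum.inr (s j m)) (g y)) :
    ∀ y, g y = y := by
  -- a homeomorphism preserves the Cantor part
  have pres : ∀ (g : ((ℕ → Bool) ⊕ M) ≃ₜ ((ℕ → Bool) ⊕ M)) (w : ℕ → Bool), ∃ w', g (Sum.inl w) = Sum.inl w' := by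
    intro g w
    rcases hgw : g (Sum.inl w) with w' | m
    · exact ⟨w', rfl⟩
    · exfalso
      obtain ⟨C, hC, hmC, m', hm'C, hne⟩ := hM m
      have h1 : IsPreconnected (g.symm '' (Sum.inr '' C)) :=
        (hC.image _ continuous_inr.continuousOn).image _ g.symm.continuous.continuousOn
      have hw : Sum.inl w ∈ g.symm '' (Sum.inr '' C) :=
        ⟨Sum.inr m, ⟨m, hmC, rfl⟩, by rw [← hgw, g.symm_apply_apply]⟩
      have hw' : g.symm (Sum.inr m') ∈ g.symm '' (Sum.inr '' C) := ⟨Sum.inr m', ⟨m', hm'C, rfl⟩, rfl⟩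
      have hsub : g.symm '' (Sum.inr '' C) ⊆ Set.range Sum.inl :=
        h1.subset_isClopen isClopen_range_inl ⟨_, hw, w, rfl⟩
      have h2 : Sum.inl '' (Sum.inl ⁻¹' (g.symm '' (Sum.inr '' C))) = g.symm '' (Sum.inr '' C) :=
        Set.image_preimage_eq_of_subset hsub
      have h3 : IsPreconnected ((Sum.inl : (ℕ → Bool) → (ℕ → Bool) ⊕ M) ⁻¹' (g.symm '' (Sum.inr '' C))) := by
        rw [← (Topology.IsEmbedding.inl (X := ℕ → Bool) (Y := M)).isInducing.isPreconnected_image, h2]
        exact h1
      have h4 := h3.subsingleton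
      obtain ⟨w2, hw2⟩ := hsub hw'
      have h5 : w = w2 := h4 hw (by rw [Set.mem_preimage, hw2]; exact hw')
      rw [← h5] at hw2
      have h6 := congrArg g hw2
      rw [g.apply_symm_apply, hgw] at h6
      exact hne (Sum.inr_injective h6).symm
  have presM : ∀ m : M, ∃ m', g (Sum.inr m) = Sum.inr m' := by
    intro m
    rcases hgm : g (Sum.inr m) with w | m'
    · exfalso
      obtain ⟨w', hw'⟩ := pres g.symm w
      rw [← hgm, g.symm_apply_apply] at hw'
      exact Sum.inr_ne_inl hw'
    · exact ⟨m', rfl⟩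
  have huu : ∀ y, u y * (u y)ᴴ = 1 := fun y => mul_eq_one_comm.1 (hu y)
  have hrow : ∀ y i, ∃ j, u y i j ≠ 0 := by
    intro y i
    by_contra hcon
    push Not at hcon
    have := congrFun (congrFun (huu y) i) i
    rw [Matrix.mul_apply, Matrix.one_apply_eq] at this
    rw [Finset.sum_eq_zero (fun j _ => by rw [hcon j, zero_mul])] at this
    exact zero_ne_one this
  choose g' hg' using pres g
  -- the four special indices
  let i0 : Fin n := ⟨0, by omega⟩
  let i1 : Fin n := ⟨1, by omega⟩
  let i2 : Fin n := ⟨2, by omega⟩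
  let i3 : Fin n := ⟨3, by omega⟩
  have stepM : ∀ w, g (Sum.inr (e w)) = Sum.inr (e (g' w)) := by
    intro w
    obtain ⟨j, hj⟩ := hrow (Sum.inl w) i3
    have h := hgu _ _ _ hj
    rw [hg' w] at h
    simp only [Sum.elim_inl] at h
    change g (pm e 3 w) = pm e j (g' w) at h
    rw [pm_three] at h
    obtain ⟨m', hm'⟩ := presM (e w)
    rw [hm'] at h
    by_cases hj3 : (j : ℕ) = 3
    · rw [hj3, pm_three] at h
      rw [hm', h]
    · exfalso
      by_cases hj2 : (j : ℕ) = 2
      · rw [hj2, pm_two] at h; exact Sum.inr_ne_inl h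
      · rw [pm_other e j hj2 hj3] at h; exact Sum.inr_ne_inl h
  have stepT : ∀ w, g (Sum.inl (cons true w)) = Sum.inl (cons true (g' w)) := by
    intro w
    by_contra hcon
    obtain ⟨j, hj⟩ := hrow (Sum.inl w) i2
    have h := hgu _ _ _ hj
    rw [hg' w] at h
    simp only [Sum.elim_inl] at h
    change g (pm e 2 w) = pm e j (g' w) at h
    rw [pm_two] at h
    have hj2 : (j : ℕ) ≠ 2 := by
      intro hh; rw [hh, pm_two] at h; exact hcon h
    have hj3 : (j : ℕ) ≠ 3 := by
      intro hh; rw [hh, pm_three, hg'] at h; exact Sum.inl_ne_inr h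
    rw [pm_other e j hj2 hj3] at h
    -- all entries of the rows 0 and 1 outside column 2 vanish
    have hz : ∀ i : Fin n, (i : ℕ) ≠ 2 → (i : ℕ) ≠ 3 → ∀ k : Fin n, u (Sum.inl w) i k ≠ 0 → k = i2 := by
      intro i hi2 hi3 k hk
      have h' := hgu _ _ _ hk
      rw [hg' w] at h'
      simp only [Sum.elim_inl] at h'
      rw [pm_other e i hi2 hi3] at h'
      by_contra hk2
      have hk2' : (k : ℕ) ≠ 2 := fun hh => hk2 (Fin.ext hh)
      have hk3 : (k : ℕ) ≠ 3 := by
        intro hh; rw [hh, pm_three, hg'] at h'; exact Sum.inl_ne_inr h'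
      rw [pm_other e k hk2' hk3, ← h] at h'
      exact cons_ne w w (Sum.inl_injective (g.injective h')).symm
    have h0 := huu (Sum.inl w)
    have h01 := congrFun (congrFun h0 i0) i1
    rw [Matrix.mul_apply, Matrix.one_apply_ne (by simp [i0, i1])] at h01
    rw [Finset.sum_eq_single i2] at h01
    · rw [Matrix.conjTranspose_apply] at h01
      rcases mul_eq_zero.1 h01 with h1 | h1
      · obtain ⟨k, hk⟩ := hrow (Sum.inl w) i0
        have := hz i0 (by simp [i0]) (by simp [i0]) k hk
        rw [this] at hk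
        exact hk h1
      · obtain ⟨k, hk⟩ := hrow (Sum.inl w) i1
        have := hz i1 (by simp [i1]) (by simp [i1]) k hk
        rw [this] at hk
        exact hk (star_eq_zero.1 h1)
    · intro k _ hk
      have : u (Sum.inl w) i0 k = 0 := by
        by_contra hne
        exact hk (hz i0 (by simp [i0]) (by simp [i0]) k hne)
      rw [this, zero_mul]
    · simp
  have stepF : ∀ w, g (Sum.inl (cons false w)) = Sum.inl (cons false (g' w)) := by
    intro w
    obtain ⟨j, hj⟩ := hrow (Sum.inl w) i0
    have h := hgu _ _ _ hj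
    rw [hg' w] at h
    simp only [Sum.elim_inl] at h
    change g (pm e 0 w) = pm e j (g' w) at h
    rw [pm_other e 0 (by norm_num) (by norm_num)] at h
    by_cases hj2 : (j : ℕ) = 2
    · exfalso
      rw [hj2, pm_two, ← stepT] at h
      exact cons_ne w w (Sum.inl_injective (g.injective h)).symm
    · by_cases hj3 : (j : ℕ) = 3
      · exfalso
        rw [hj3, pm_three, hg'] at h
        exact Sum.inl_ne_inr h
      · rwa [pm_other e j hj2 hj3] at h
  have hcons : ∀ b w, g' (cons b w) = cons b (g' w) := by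
    intro b w
    cases b with
    | false => exact Sum.inl_injective ((hg' _).symm.trans (stepF w))
    | true => exact Sum.inl_injective ((hg' _).symm.trans (stepT w))
  have hdec : ∀ w : ℕ → Bool, w = cons (w 0) (fun k => w (k + 1)) := by
    intro w
    funext k
    cases k <;> rfl
  have hid : ∀ k w, g' w k = w k := by
    intro k
    induction k with
    | zero =>
      intro w
      rw [hdec w, hcons]; rfl
    | succ k ih =>
      intro w
      rw [hdec w, hcons]
      exact ih _
  have hid' : ∀ w, g' w = w := fun w => funext fun k => hid k w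
  rintro (w | m)
  · rw [hg', hid']
  · obtain ⟨w, rfl⟩ := he m
    rw [stepM, hid']

end Pool.Agent.U925.DK
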