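import Pool.Agent.U925.DK.Core
import Pool.Agent.U925.DK.Red
import Pool.Agent.U925.DK.Rigid

namespace Pool.Agent.U925.DK

open Matrix

/-- the simplex with vertex set S_4 -/
abbrev Dl : Type := stdSimplex ℝ Pm

/-- a finite-dimensional cube -/
abbrev Cube : Type := (Finset (Fin 4) × Finset (Fin 4)) → Set.Icc (0 : ℝ) 1

open Classical in
/-- total mass of the permutations mapping R onto C -/
noncomputable def mass (R C : Finset (Fin 4)) (x : Pm → ℝ) : ℝ :=
  ∑ π, if π ∈ PRC R C then x π else 0

theorem continuous_mass (R C : Finset (Fin 4)) : Continuous (mass R C) := by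
  classical
  unfold mass
  apply continuous_finsetSum
  intro π _
  split_ifs
  · exact continuous_apply π
  · exact continuous_const

theorem mass_le_one (R C : Finset (Fin 4)) (x : Dl) : mass R C x.1 ≤ 1 := by
  classical
  rw [← x.2.2]
  apply Finset.sum_le_sum
  intro π _
  split_ifs
  · exact le_rfl
  · exact x.2.1 π

theorem mass_eq_one (R C : Finset (Fin 4)) (x : Pm → ℝ) (hx : x ∈ K (PRC R C)) : mass R C x = 1 := by
  classical
  rw [← hx.1.2]
  apply Finset.sum_congr rfl
  intro π _
  split_ifs with h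
  · rfl
  · exact (hx.2 π h).symm

theorem mass_add_le (R C : Finset (Fin 4)) (x : Dl) (π : Pm) (hπ : π ∉ PRC R C) :
    mass R C x.1 + x.1 π ≤ 1 := by
  classical
  have h1 : x.1 π = ∑ ρ, if ρ = π then x.1 ρ else 0 := by simp
  rw [← x.2.2, mass, h1, ← Finset.sum_add_distrib]
  apply Finset.sum_le_sum
  intro ρ _
  by_cases h2 : ρ = π
  · subst h2
    rw [if_neg hπ, if_pos rfl, zero_add]
  · rw [if_neg h2, add_zero]
    split_ifs
    · exact le_rfl
    · exact x.2.1 ρ

/-- the weight of a pair (R,C) -/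
noncomputable def wt (R C : Finset (Fin 4)) (x : Pm → ℝ) : ℝ := max 0 (mass R C x - 24 / 25)

theorem continuous_wt (R C : Finset (Fin 4)) : Continuous (wt R C) :=
  continuous_const.max ((continuous_mass R C).sub continuous_const)

theorem wt_mem (R C : Finset (Fin 4)) (x : Dl) : wt R C x.1 ∈ Set.Icc (0 : ℝ) 1 := by
  constructor
  · exact le_max_left _ _
  · apply max_le zero_le_one
    have := mass_le_one R C x
    linarith

open Classical in
/-- the four coordinate maps Δ → cube of the first system -/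
noncomputable def sm (j : Fin 4) (x : Dl) : Cube := fun p =>
  if j ∈ p.2 then ⟨wt p.1 p.2 x.1, wt_mem _ _ x⟩ else 0

open Classical in
/-- the four coordinate maps Δ → cube of the second system -/
noncomputable def tm (i : Fin 4) (x : Dl) : Cube := fun p =>
  if i ∈ p.1 then ⟨wt p.1 p.2 x.1, wt_mem _ _ x⟩ else 0

theorem continuous_sm (j : Fin 4) : Continuous (sm j) := by
  apply continuous_pi
  intro p
  unfold sm
  split_ifs
  · exact Continuous.subtype_mk ((continuous_wt _ _).comp continuous_subtype_val) _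
  · exact continuous_const

theorem continuous_tm (j : Fin 4) : Continuous (tm j) := by
  apply continuous_pi
  intro p
  unfold tm
  split_ifs
  · exact Continuous.subtype_mk ((continuous_wt _ _).comp continuous_subtype_val) _
  · exact continuous_const

theorem tm_eq_sm (π : Pm) (x : Dl) (hx : 1 / 25 < x.1 π) (i : Fin 4) : tm i x = sm (π i) x := by
  classical
  funext p
  by_cases hp : π ∈ PRC p.1 p.2
  · have := hp i
    unfold tm sm
    by_cases hi : i ∈ p.1
    · rw [if_pos hi, if_pos (this.1 hi)]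
    · rw [if_neg hi, if_neg (fun h => hi (this.2 h))]
  · have h1 := mass_add_le p.1 p.2 x π hp
    have h2 : wt p.1 p.2 x.1 = 0 := by
      unfold wt
      apply max_eq_left
      linarith
    unfold tm sm
    have h3 : (⟨wt p.1 p.2 x.1, wt_mem _ _ x⟩ : Set.Icc (0 : ℝ) 1) = 0 := by
      apply Subtype.ext
      exact h2
    rw [h3]
    simp

theorem block_of_eq (R C : Finset (Fin 4)) (x : Dl) (hx : x.1 ∈ K (PRC R C)) (i j : Fin 4)
    (h : tm i x = sm j x) : i ∈ R ↔ j ∈ C := by
  classical
  have h1 := congrFun h (R, C)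
  have h2 : wt R C x.1 = 1 / 25 := by
    unfold wt
    rw [mass_eq_one R C x.1 hx]
    norm_num
  have h3 : (⟨wt R C x.1, wt_mem _ _ x⟩ : Set.Icc (0 : ℝ) 1) ≠ 0 := by
    intro h0
    have := congrArg Subtype.val h0
    simp only [h2] at this
    norm_num at this
  unfold tm sm at h1
  simp only at h1
  by_cases hi : i ∈ R <;> by_cases hj : j ∈ C
  · tauto
  · rw [if_pos hi, if_neg hj] at h1
    exact absurd h1 h3
  · rw [if_neg hi, if_pos hj] at h1
    exact absurd h1.symm h3
  · tauto

/-- the compact metrizable part Δ ⊔ cube -/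
abbrev Mt : Type := Dl ⊕ Cube

/-- maps of the first system on Δ ⊔ cube, n ≥ 4 -/
noncomputable def sM (j : ℕ) : Mt → Mt :=
  Sum.elim (fun x => if h : j < 4 then Sum.inr (sm ⟨j, h⟩ x) else Sum.inl x) Sum.inr

/-- maps of the second system on Δ ⊔ cube, n ≥ 4 -/
noncomputable def tM (j : ℕ) : Mt → Mt :=
  Sum.elim (fun x => if h : j < 4 then Sum.inr (tm ⟨j, h⟩ x) else Sum.inl x) Sum.inr

theorem continuous_sM (j : ℕ) : Continuous (sM j) := by
  apply Continuous.sumElim _ continuous_inr
  by_cases h : j < 4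
  · simp only [h, dif_pos]
    exact continuous_inr.comp (continuous_sm _)
  · simp only [h, dif_neg, not_false_eq_true]
    exact continuous_inl

theorem continuous_tM (j : ℕ) : Continuous (tM j) := by
  apply Continuous.sumElim _ continuous_inr
  by_cases h : j < 4
  · simp only [h, dif_pos]
    exact continuous_inr.comp (continuous_tm _)
  · simp only [h, dif_neg, not_false_eq_true]
    exact continuous_inl

theorem exists_surj : ∃ e : (ℕ → Bool) → Mt, Continuous e ∧ Function.Surjective e := by
  obtain ⟨e1, he1, hs1⟩ := exists_nat_bool_continuous_surjective_of_compact Dl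
  obtain ⟨e2, he2, hs2⟩ := exists_nat_bool_continuous_surjective_of_compact Cube
  have htail : Continuous (fun (w : ℕ → Bool) (k : ℕ) => w (k + 1)) :=
    continuous_pi fun k => continuous_apply (k + 1)
  refine ⟨fun w => if w 0 = true then Sum.inl (e1 fun k => w (k + 1)) else Sum.inr (e2 fun k => w (k + 1)), ?_, ?_⟩
  · apply Continuous.if
    · intro a ha
      exfalso
      have hcl : IsClopen {w : ℕ → Bool | w 0 = true} :=
        (isClopen_discrete {true}).preimage (continuous_apply 0)
      rw [hcl.frontier_eq] at ha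
      exact ha
    · exact continuous_inl.comp (he1.comp htail)
    · exact continuous_inr.comp (he2.comp htail)
  · rintro (x | z)
    · obtain ⟨w, rfl⟩ := hs1 x
      exact ⟨cons true w, by simp⟩
    · obtain ⟨w, rfl⟩ := hs2 z
      exact ⟨cons false w, by simp⟩

theorem hMt : ∀ m : Mt, ∃ C : Set Mt, IsPreconnected C ∧ m ∈ C ∧ ∃ m' ∈ C, m' ≠ m := by
  rintro (x | z)
  · obtain ⟨x', hx'⟩ := exists_ne x
    exact ⟨Set.range Sum.inl, isPreconnected_range continuous_inl, ⟨x, rfl⟩, Sum.inl x', ⟨x', rfl⟩,
      fun h => hx' (Sum.inl_injective h)⟩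
  · obtain ⟨z', hz'⟩ := exists_ne z
    exact ⟨Set.range Sum.inr, isPreconnected_range continuous_inr, ⟨z, rfl⟩, Sum.inr z', ⟨z', rfl⟩,
      fun h => hz' (Sum.inr_injective h)⟩

/-- the space of the example -/
abbrev Xs : Type := (ℕ → Bool) ⊕ Mt

/-- a continuous self-map of a compact space as a proper map -/
def toCo {X : Type} [TopologicalSpace X] [CompactSpace X] (f : X → X) (hf : Continuous f) :
    CocompactMap X X where
  toFun := f
  continuous_toFun := hf
  cocompact_tendsto' := by
    rw [Filter.cocompact_eq_bot]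
    exact Filter.tendsto_bot

/-- the example: for every n ≥ 4 -/
theorem example_n (n : ℕ) (hn : 4 ≤ n) : ∃ σ τ : Fin n → CocompactMap Xs Xs,
    PiecewiseConjugate σ τ ∧ ¬ UnitarilyEquivalent σ τ := by
  obtain ⟨e, hec, hes⟩ := exists_surj
  have hσc : ∀ j : ℕ, Continuous (Sum.elim (pm e j) (fun m => (Sum.inr (sM j m) : Xs))) := fun j =>
    (continuous_pm e hec j).sumElim (continuous_inr.comp (continuous_sM j))
  have hτc : ∀ j : ℕ, Continuous (Sum.elim (pm e j) (fun m => (Sum.inr (tM j m) : Xs))) := fun j =>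
    (continuous_pm e hec j).sumElim (continuous_inr.comp (continuous_tM j))
  set σ : Fin n → CocompactMap Xs Xs := fun j => toCo _ (hσc j) with hσ
  set τ : Fin n → CocompactMap Xs Xs := fun j => toCo _ (hτc j) with hτ
  have hσa : ∀ j y, σ j y = Sum.elim (pm e j) (fun m => (Sum.inr (sM j m) : Xs)) y := fun j y => rfl
  have hτa : ∀ j y, τ j y = Sum.elim (pm e j) (fun m => (Sum.inr (tM j m) : Xs)) y := fun j y => rfl
  refine ⟨σ, τ, ?_, ?_⟩
  · refine ⟨Homeomorph.refl _, fun π' => interior {y | ∀ i, τ i y = σ (π' i) y}, fun _ => isOpen_interior, ?_, ?_⟩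
    · rw [Set.eq_univ_iff_forall]
      rintro (w | x | z)
      · rw [Set.mem_iUnion]
        refine ⟨1, mem_interior.2 ⟨Set.range Sum.inl, ?_, isOpen_range_inl, ⟨w, rfl⟩⟩⟩
        rintro _ ⟨w', rfl⟩ i
        rfl
      · rw [Set.mem_iUnion]
        have hex : ∃ π : Pm, 1 / 25 < x.1 π := by
          by_contra hcon
          push Not at hcon
          have h1 : ∑ π : Pm, x.1 π ≤ ∑ π : Pm, (1 / 25 : ℝ) := Finset.sum_le_sum fun π _ => hcon π
          rw [x.2.2, Finset.sum_const, Finset.card_univ, Fintype.card_perm, Fintype.card_fin] at h1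
          norm_num [Nat.factorial] at h1
        obtain ⟨π, hπ⟩ := hex
        refine ⟨π.viaFintypeEmbedding (Fin.castLEEmb hn), mem_interior.2 ⟨Sum.inr '' (Sum.inl '' {x : Dl | 1 / 25 < x.1 π}), ?_, ?_, ?_⟩⟩
        · rintro _ ⟨_, ⟨x', hx', rfl⟩, rfl⟩ i
          rw [hτa, hσa]
          simp only [Sum.elim_inr, tM, sM, Sum.elim_inl]
          by_cases hi : (i : ℕ) < 4
          · have h1 : i = Fin.castLEEmb hn ⟨i, hi⟩ := rfl
            have h2 : π.viaFintypeEmbedding (Fin.castLEEmb hn) i = Fin.castLEEmb hn (π ⟨i, hi⟩) := by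
              conv_lhs => rw [h1]
              exact Equiv.Perm.viaFintypeEmbedding_apply_image _ _ _
            have h3 : ((π.viaFintypeEmbedding (Fin.castLEEmb hn) i : Fin n) : ℕ) = (π ⟨i, hi⟩ : ℕ) := by
              rw [h2]; rfl
            have h4 : ((π.viaFintypeEmbedding (Fin.castLEEmb hn) i : Fin n) : ℕ) < 4 := by
              rw [h3]; exact (π ⟨i, hi⟩).2
            rw [dif_pos hi, dif_pos h4]
            have h5 : (⟨((π.viaFintypeEmbedding (Fin.castLEEmb hn) i : Fin n) : ℕ), h4⟩ : Fin 4) = π ⟨i, hi⟩ :=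
              Fin.ext h3
            rw [h5, tm_eq_sm π x' hx']
          · have h2 : π.viaFintypeEmbedding (Fin.castLEEmb hn) i = i := by
              apply Equiv.Perm.viaFintypeEmbedding_apply_notMem_range
              rintro ⟨k, hk⟩
              exact hi (by rw [← hk]; exact k.2)
            rw [h2, dif_neg hi, dif_neg hi]
        · apply isOpenMap_inr
          apply isOpenMap_inl
          exact isOpen_lt continuous_const ((continuous_apply π).comp continuous_subtype_val)
        · exact ⟨_, ⟨x, hπ, rfl⟩, rfl⟩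
      · rw [Set.mem_iUnion]
        refine ⟨1, mem_interior.2 ⟨Sum.inr '' (Set.range Sum.inr), ?_, isOpenMap_inr _ isOpen_range_inr, ⟨_, ⟨z, rfl⟩, rfl⟩⟩⟩
        rintro _ ⟨_, ⟨z', rfl⟩, rfl⟩ i
        rfl
    · intro π' y hy i
      exact interior_subset hy i
  · intro hUE
    obtain ⟨g, u, huc, huu, hgu⟩ := reduction σ τ hUE
    have hid : ∀ y, g y = y := rigid hMt e hes hn (fun j => sM j) (fun j => tM j) g u huu
      (fun y i j hne => hgu y i j hne)
    have hgu' : ∀ y i j, u y i j ≠ 0 → τ i y = σ j y := by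
      intro y i j hne
      have := hgu y i j hne
      rwa [hid, hid] at this
    -- the corner over the simplex
    let ι : Fin 4 → Fin n := Fin.castLE hn
    have hval : ∀ (x : Dl) (i j : Fin n), u (Sum.inr (Sum.inl x)) i j ≠ 0 → ((i : ℕ) < 4 ↔ (j : ℕ) < 4) := by
      intro x i j hne
      have h := hgu' _ _ _ hne
      rw [hτa, hσa] at h
      simp only [Sum.elim_inr, tM, sM, Sum.elim_inl] at h
      have h := Sum.inr_injective h
      by_cases hi : (i : ℕ) < 4 <;> by_cases hj : (j : ℕ) < 4
      · tauto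
      · rw [dif_pos hi, dif_neg hj] at h; exact absurd h.symm Sum.inl_ne_inr
      · rw [dif_neg hi, dif_pos hj] at h; exact absurd h Sum.inl_ne_inr
      · tauto
    have hval2 : ∀ (x : Dl) (i j : Fin 4), u (Sum.inr (Sum.inl x)) (ι i) (ι j) ≠ 0 → tm i x = sm j x := by
      intro x i j hne
      have h := hgu' _ _ _ hne
      rw [hτa, hσa] at h
      simp only [Sum.elim_inr, tM, sM, Sum.elim_inl] at h
      have h := Sum.inr_injective h
      have hi : ((ι i : Fin n) : ℕ) < 4 := i.2
      have hj : ((ι j : Fin n) : ℕ) < 4 := j.2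
      rw [dif_pos hi, dif_pos hj] at h
      exact Sum.inr_injective h
    classical
    let v : (Pm → ℝ) → Matrix (Fin 4) (Fin 4) ℂ := fun x =>
      if h : x ∈ stdSimplex ℝ Pm then (u (Sum.inr (Sum.inl ⟨x, h⟩))).submatrix ι ι else 0
    have hv : ∀ x : Dl, v x.1 = (u (Sum.inr (Sum.inl x))).submatrix ι ι := by
      intro x
      simp only [v]
      rw [dif_pos x.2]
    apply core v
    · rw [continuousOn_iff_continuous_domRestrict]
      have : (stdSimplex ℝ Pm).domRestrict v = fun x : Dl => (u (Sum.inr (Sum.inl x))).submatrix ι ι := by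
        funext x
        exact hv x
      rw [this]
      exact (huc.comp (continuous_inr.comp continuous_inl)).matrix_submatrix ι ι
    · intro x hx
      rw [hv ⟨x, hx⟩]
      ext a b
      rw [Matrix.mul_apply]
      simp only [Matrix.conjTranspose_apply, Matrix.submatrix_apply]
      have h1 := congrFun (congrFun (huu (Sum.inr (Sum.inl ⟨x, hx⟩))) (ι a)) (ι b)
      rw [Matrix.mul_apply] at h1
      have h2 : ∑ k : Fin 4, star (u (Sum.inr (Sum.inl ⟨x, hx⟩)) (ι k) (ι a)) * u (Sum.inr (Sum.inl ⟨x, hx⟩)) (ι k) (ι b) =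
          ∑ k : Fin n, (u (Sum.inr (Sum.inl ⟨x, hx⟩)))ᴴ (ι a) k * u (Sum.inr (Sum.inl ⟨x, hx⟩)) k (ι b) := by
        apply Fintype.sum_of_injective ι (Fin.castLE_injective hn)
        · intro k hk
          have : u (Sum.inr (Sum.inl ⟨x, hx⟩)) k (ι b) = 0 := by
            by_contra hne
            have hk4 : (k : ℕ) < 4 := (hval _ _ _ hne).2 b.2
            exact hk ⟨⟨k, hk4⟩, rfl⟩
          rw [this, mul_zero]
        · intro k
          rfl
      rw [h2, h1]
      simp only [Matrix.one_apply]
      by_cases hab : a = b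
      · simp [hab]
      · rw [if_neg hab, if_neg (fun h => hab (Fin.castLE_injective hn h))]
    · intro R C x hx i j hne
      rw [hv ⟨x, hx.1⟩] at hne
      exact block_of_eq R C ⟨x, hx.1⟩ hx i j (hval2 ⟨x, hx.1⟩ i j hne)

end Pool.Agent.U925.DK
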