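import Mathlib

namespace Pool.Agent.U925.DK

open Complex Set

variable {V : Type*} [NormedAddCommGroup V] [NormedSpace ℝ V]

/-- continuous arguments on compact convex sets -/
theorem exists_log {K : Set V} (hK : Convex ℝ K) (hc : IsCompact K) {g : V → ℂ}
    (hg : ContinuousOn g K) (h1 : ∀ x ∈ K, ‖g x‖ = 1) :
    ∃ θ : V → ℝ, ContinuousOn θ K ∧ ∀ x ∈ K, g x = Complex.exp (θ x * Complex.I) := by
  rcases K.eq_empty_or_nonempty with rfl | ⟨x0, hx0⟩
  · exact ⟨fun _ => 0, continuousOn_empty _, by simp⟩
  have huc : UniformContinuousOn g K := hc.uniformContinuousOn_of_continuous hg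
  rw [Metric.uniformContinuousOn_iff] at huc
  obtain ⟨δ, hδ, hδ'⟩ := huc 1 one_pos
  obtain ⟨D, hD⟩ := hc.isBounded.exists_norm_le
  have hD0 : 0 ≤ D := (norm_nonneg _).trans (hD x0 hx0)
  obtain ⟨N, hN⟩ := exists_nat_gt ((2 * D + 1) / δ)
  have hNpos : (0 : ℝ) < N := lt_of_le_of_lt (by positivity) hN
  set y : ℕ → V → V := fun k x => x0 + ((k : ℝ) / N) • (x - x0) with hy
  have hyc : ∀ k, Continuous (y k) := by
    intro k; fun_prop
  have hyK : ∀ k ≤ N, ∀ x ∈ K, y k x ∈ K := by
    intro k hk x hx
    apply hK.add_smul_sub_mem hx0 hx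
    constructor
    · positivity
    · rw [div_le_one hNpos]; exact_mod_cast hk
  have hdist : ∀ k, ∀ x ∈ K, dist (y (k+1) x) (y k x) < δ := by
    intro k x hx
    rw [dist_eq_norm]
    have : y (k+1) x - y k x = (1 / (N:ℝ)) • (x - x0) := by
      simp only [hy]
      rw [add_sub_add_left_eq_sub, ← sub_smul]
      congr 1
      push_cast; ring
    rw [this, norm_smul, Real.norm_of_nonneg (by positivity)]
    have h2 : ‖x - x0‖ ≤ 2 * D := by
      calc ‖x - x0‖ ≤ ‖x‖ + ‖x0‖ := norm_sub_le _ _
        _ ≤ D + D := add_le_add (hD x hx) (hD x0 hx0)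
        _ = 2 * D := by ring
    have h3 : 2 * D + 1 < δ * N := by
      rw [div_lt_iff₀ hδ] at hN; linarith
    calc 1 / (N:ℝ) * ‖x - x0‖ ≤ 1 / (N:ℝ) * (2 * D) := by gcongr
      _ < δ := by
        rw [one_div, inv_mul_lt_iff₀ hNpos]; linarith
  set r : ℕ → V → ℂ := fun k x => g (y (k+1) x) * (starRingEnd ℂ) (g (y k x)) with hr
  have hrc : ∀ k < N, ContinuousOn (r k) K := by
    intro k hk
    have a1 : ContinuousOn (fun x => g (y (k+1) x)) K :=
      hg.comp (hyc (k+1)).continuousOn (fun x hx => hyK (k+1) hk x hx)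
    have a2 : ContinuousOn (fun x => g (y k x)) K :=
      hg.comp (hyc k).continuousOn (fun x hx => hyK k hk.le x hx)
    exact a1.mul (Complex.continuous_conj.comp_continuousOn a2)
  have hmul : ∀ k ≤ N, ∀ x ∈ K, (starRingEnd ℂ) (g (y k x)) * g (y k x) = 1 := by
    intro k hk x hx
    rw [← Complex.normSq_eq_conj_mul_self, Complex.normSq_eq_norm_sq, h1 _ (hyK k hk x hx)]
    norm_num
  have hr1 : ∀ k < N, ∀ x ∈ K, ‖r k x - 1‖ < 1 := by
    intro k hk x hx
    have e : r k x - 1 = (g (y (k+1) x) - g (y k x)) * (starRingEnd ℂ) (g (y k x)) := by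
      simp only [hr]
      have := hmul k hk.le x hx
      rw [sub_mul, mul_comm (g (y k x)), this]
    rw [e, norm_mul, RCLike.norm_conj, h1 _ (hyK k hk.le x hx), mul_one, ← dist_eq_norm]
    exact hδ' _ (hyK (k+1) hk x hx) _ (hyK k hk.le x hx) (hdist k x hx)
  have hslit : ∀ k < N, ∀ x ∈ K, r k x ∈ Complex.slitPlane := by
    intro k hk x hx
    rw [Complex.mem_slitPlane_iff]
    left
    have h := hr1 k hk x hx
    have h2 : |(r k x - 1).re| ≤ ‖r k x - 1‖ := Complex.abs_re_le_norm _
    have h3 : |(r k x).re - 1| < 1 := by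
      have := lt_of_le_of_lt h2 h
      simpa using this
    rw [abs_lt] at h3
    linarith [h3.1]
  have hrn : ∀ k < N, ∀ x ∈ K, ‖r k x‖ = 1 := by
    intro k hk x hx
    simp only [hr]
    rw [norm_mul, RCLike.norm_conj, h1 _ (hyK k hk.le x hx), h1 _ (hyK (k+1) hk x hx), one_mul]
  have hexp : ∀ z : ℂ, ‖z‖ = 1 → Complex.exp (Complex.arg z * Complex.I) = z := by
    intro z hz
    have := Complex.norm_mul_exp_arg_mul_I z
    rwa [hz, Complex.ofReal_one, one_mul] at this
  refine ⟨fun x => Complex.arg (g x0) + ∑ k ∈ Finset.range N, Complex.arg (r k x), ?_, ?_⟩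
  · apply continuousOn_const.add
    apply continuousOn_finsetSum
    intro k hk
    rw [Finset.mem_range] at hk
    intro x hx
    exact (Complex.continuousAt_arg (hslit k hk x hx)).comp_continuousWithinAt (hrc k hk x hx)
  · intro x hx
    have key : ∀ m ≤ N, Complex.exp (((Complex.arg (g x0) + ∑ k ∈ Finset.range m, Complex.arg (r k x) : ℝ) : ℂ) * Complex.I) = g (y m x) := by
      intro m
      induction m with
      | zero =>
        intro _
        simp only [Finset.range_zero, Finset.sum_empty, add_zero]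
        rw [hexp _ (h1 _ hx0)]
        simp [hy]
      | succ m ih =>
        intro hm
        have ih' := ih (by omega)
        rw [Finset.sum_range_succ, ← add_assoc]
        push_cast at ih' ⊢
        rw [add_mul, Complex.exp_add, ih', hexp _ (hrn m (by omega) x hx)]
        simp only [hr]
        rw [mul_comm, mul_assoc, hmul m (by omega) x hx, mul_one]
    have := key N le_rfl
    rw [this]
    congr 1
    simp only [hy]
    rw [div_self hNpos.ne']
    simp

/-- a continuous real function on a preconnected set whose exponential is constant is constant -/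
theorem const_of_exp {K : Set V} (hK : IsPreconnected K) {f : V → ℝ} (hf : ContinuousOn f K)
    (h : ∀ x ∈ K, ∀ y ∈ K, Complex.exp (f x * Complex.I) = Complex.exp (f y * Complex.I)) :
    ∀ x ∈ K, ∀ y ∈ K, f x = f y := by
  have main : ∀ x ∈ K, ∀ y ∈ K, ¬ f x < f y := by
    intro x hx y hy hlt
    have hm : (f '' K).OrdConnected := (hK.image f hf).ordConnected
    obtain ⟨n, hn⟩ := Complex.exp_eq_exp_iff_exists_int.1 (h y hy x hx)
    have hn' : f y = f x + n * (2 * Real.pi) := by
      have := congrArg Complex.im hn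
      simpa using this
    have hnpos : (0:ℝ) < n := by
      by_contra hcon
      push Not at hcon
      have : (n:ℝ) * (2 * Real.pi) ≤ 0 := mul_nonpos_of_nonpos_of_nonneg hcon (by positivity)
      linarith
    have hn1 : (1:ℝ) ≤ n := by exact_mod_cast (by exact_mod_cast hnpos : (0:ℤ) < n)
    have hmem : f x + Real.pi ∈ f '' K := by
      apply hm.out ⟨x, hx, rfl⟩ ⟨y, hy, rfl⟩
      constructor
      · linarith [Real.pi_pos]
      · rw [hn']
        nlinarith [Real.pi_pos]
    obtain ⟨z, hz, hz'⟩ := hmem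
    have := h z hz x hx
    rw [hz'] at this
    push_cast at this
    rw [add_mul, Complex.exp_add, Complex.exp_pi_mul_I] at this
    have hne := Complex.exp_ne_zero (f x * Complex.I)
    have h0 : Complex.exp (f x * Complex.I) * 2 = 0 := by linear_combination -this
    exact hne (by simpa using h0)
  intro x hx y hy
  exact le_antisymm (not_lt.1 (main y hy x hx)) (not_lt.1 (main x hx y hy))

end Pool.Agent.U925.DK
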